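import Mathlib

/-!
# The sign pattern of the perturbed Hofstadter sequence is not eventually 4-regular
-/

namespace Pool.Agent.Results.MP_f18a8d_nt.NotRegular


open Polynomial

/-- The `4`-kernel of `t`: all sequences `n ↦ t (4 ^ e * n + c)` with `0 ≤ c < 4 ^ e`. -/
def kernel4 (t : ℕ → ℤ) : Set (ℕ → ℤ) :=
  {g | ∃ e c : ℕ, c < 4 ^ e ∧ g = fun n => t (4 ^ e * n + c)}

/-- `t` is `4`-regular: the `ℤ`-module spanned by its `4`-kernel is finitely generated. -/
def IsFourRegular (t : ℕ → ℤ) : Prop :=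
  (Submodule.span ℤ (kernel4 t)).FG

/-- `s` agrees with a `4`-regular sequence at all sufficiently large `n`. -/
def IsEventuallyFourRegular (s : ℕ → ℤ) : Prop :=
  ∃ t : ℕ → ℤ, IsFourRegular t ∧ ∃ N : ℕ, ∀ n, N ≤ n → s n = t n

/-- `T k = (4 ^ k - 1) / 3`. -/
def T : ℕ → ℕ
  | 0 => 0
  | k + 1 => 4 * T k + 1

theorem T_eq (k : ℕ) : 3 * T k + 1 = 4 ^ k := by
  induction k with
  | zero => simp [T]
  | succ k ih => rw [pow_succ, ← ih, T]; ring

theorem T_add (i j : ℕ) : 4 ^ i * T j + T i = T (i + j) := by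
  have h1 := T_eq i
  have h2 := T_eq j
  have h3 := T_eq (i + j)
  rw [pow_add, ← h1, ← h2] at h3
  rw [← h1]
  nlinarith

/-- The operator `g ↦ (n ↦ g (4 n + 1))`. -/
def Phi : (ℕ → ℤ) →ₗ[ℤ] (ℕ → ℤ) := LinearMap.funLeft ℤ ℤ (fun n => 4 * n + 1)

theorem Phi_apply (g : ℕ → ℤ) (n : ℕ) : Phi g n = g (4 * n + 1) := rfl

theorem Phi_pow_apply (k : ℕ) (g : ℕ → ℤ) (n : ℕ) : (Phi ^ k) g n = g (4 ^ k * n + T k) := by
  induction k generalizing g n with
  | zero => simp [T]
  | succ k ih =>
    rw [pow_succ, Module.End.mul_apply, ih, Phi_apply, T]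
    congr 1
    ring

theorem Phi_mem (t : ℕ → ℤ) (g : ℕ → ℤ) (hg : g ∈ Submodule.span ℤ (kernel4 t)) :
    Phi g ∈ Submodule.span ℤ (kernel4 t) := by
  have h : Submodule.span ℤ (kernel4 t) ≤ (Submodule.span ℤ (kernel4 t)).comap Phi := by
    rw [Submodule.span_le]
    rintro f ⟨e, c, hc, rfl⟩
    refine Submodule.subset_span ⟨e + 1, 4 ^ e + c, ?_, ?_⟩
    · rw [pow_succ]; omega
    · funext n
      rw [Phi_apply]
      congr 1
      ring
  exact h hg

theorem exists_rec {t : ℕ → ℤ} (ht : IsFourRegular t) :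
    ∃ p : ℤ[X], p.Monic ∧ ∀ e c : ℕ, c < 4 ^ e → ∀ j : ℕ,
      ∑ i ∈ Finset.range (p.natDegree + 1), p.coeff i * t (4 ^ e * T (i + j) + c) = 0 := by
  have : Module.Finite ℤ (Submodule.span ℤ (kernel4 t)) := Module.Finite.iff_fg.mpr ht
  obtain ⟨p, hp, hp0⟩ := LinearMap.exists_monic_and_aeval_eq_zero ℤ
    (Phi.restrict (p := Submodule.span ℤ (kernel4 t)) (q := Submodule.span ℤ (kernel4 t))
      (Phi_mem t))
  refine ⟨p, hp, ?_⟩
  intro e c hc j
  have hg : (fun n => t (4 ^ e * n + c)) ∈ Submodule.span ℤ (kernel4 t) :=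
    Submodule.subset_span ⟨e, c, hc, rfl⟩
  have h1 := congrArg (fun f => ((f ⟨_, hg⟩ : Submodule.span ℤ (kernel4 t)) : ℕ → ℤ) (T j)) hp0
  simp only [Polynomial.aeval_eq_sum_range] at h1
  rw [LinearMap.sum_apply] at h1
  simp only [LinearMap.smul_apply, AddSubmonoidClass.coe_finsetSum, Finset.sum_apply,
    LinearMap.zero_apply] at h1
  have h2 : ∀ k : ℕ, (((Phi.restrict (p := Submodule.span ℤ (kernel4 t))
      (q := Submodule.span ℤ (kernel4 t)) (Phi_mem t)) ^ k) ⟨_, hg⟩ : ℕ → ℤ) =
      (Phi ^ k) (fun n => t (4 ^ e * n + c)) := by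
    intro k
    rw [Module.End.pow_restrict]
    rfl
  simp only [SetLike.val_smul, h2, Pi.smul_apply, Phi_pow_apply, smul_eq_mul, T_add] at h1
  exact h1



/-- Both sequences move by `0` or `1` at every step `x → x + 1` with `1 ≤ x < N`. -/
def Slow (A B : ℤ → ℤ) (N : ℤ) : Prop :=
  ∀ x, 1 ≤ x → x < N → (A (x + 1) = A x ∨ A (x + 1) = A x + 1) ∧
    (B (x + 1) = B x ∨ B (x + 1) = B x + 1)

theorem Slow.mono_aux {A B : ℤ → ℤ} {N : ℤ} (h : Slow A B N) (x : ℤ) (hx : 1 ≤ x) :
    ∀ y, x ≤ y → y ≤ N → A x ≤ A y ∧ B x ≤ B y ∧ A y ≤ A x + (y - x) ∧ B y ≤ B x + (y - x) := by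
  intro y hy
  induction y, hy using Int.leInduction with
  | base => intro _; refine ⟨le_refl _, le_refl _, by omega, by omega⟩
  | succ y hy ih =>
    intro hyN
    have h1 := ih (by omega)
    have h2 := h y (by omega) (by omega)
    omega

theorem Slow.mono {A B : ℤ → ℤ} {N : ℤ} (h : Slow A B N) {x y : ℤ} (hx : 1 ≤ x)
    (hxy : x ≤ y) (hy : y ≤ N) :
    A x ≤ A y ∧ B x ≤ B y ∧ A y ≤ A x + (y - x) ∧ B y ≤ B x + (y - x) :=
  h.mono_aux x hx y hxy hy

/-- The recurrence for `A`. -/
def RecA (A B : ℤ → ℤ) : Prop :=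
  ∀ m, 1 ≤ m → 1 ≤ A m → 1 ≤ B m → A (m + 1) = B (m + 1 - B m) + B (m + 1 - A m) - 1

/-- The recurrence for `B`. -/
def RecB (A B : ℤ → ℤ) : Prop :=
  ∀ m, 1 ≤ m → 1 ≤ A (m + 1) → 1 ≤ B m → B (m + 1) = A (m + 2 - A (m + 1)) + A (m + 2 - B m)

/-- The situation around `u_R`. -/
structure PU (A B : ℤ → ℤ) (R u a : ℤ) : Prop where
  hR : 2 ≤ R
  hu : 2 * a = u + R + 2
  ha : R + 3 ≤ a
  slow : Slow A B (u + R + 2)
  Awin : ∀ i, -R ≤ i → i ≤ R + 2 → A (u + i) = a
  Bwin : ∀ i, -R - 1 ≤ i → i ≤ R + 2 → B (u + i) = a + i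
  Aleft : A (u - R - 1) = a - 1
  Aright : A (u + R + 3) = a + 1
  O1 : ∀ x, u + 1 - a ≤ x → x ≤ u + R + 1 → A (x + 1) + B x = x + R + 2

/-- The situation around `v_R`. -/
structure PV (A B : ℤ → ℤ) (R v a : ℤ) : Prop where
  hR : 2 ≤ R
  hv : 4 * a = v + R + 2
  ha : R + 3 ≤ a
  slow : Slow A B (v + R + 2)
  Awin : ∀ i, -R - 2 ≤ i → i ≤ R + 2 → A (v + i) = 2 * a + i
  Bwin : ∀ i, -R - 2 ≤ i → i ≤ R + 1 → B (v + i) = 2 * a
  Bleft : B (v - R - 3) = 2 * a - 1
  Bright : B (v + R + 2) = 2 * a + 1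
  E1 : ∀ x, v - 2 * a ≤ x → x ≤ v + R + 1 → A x + B x = x + R + 2

section EPhase

variable {A B : ℤ → ℤ} {R u a : ℤ}

/-- Invariant of the even phase. -/
def InvE (A B : ℤ → ℤ) (R u a m : ℤ) : Prop :=
  A m + B m = m + R + 2 ∧
  (A (m + 1) = A m ∨ (A (m + 1) = A m + 1 ∧ A (m + 1 - A m + 1) = A (m + 1 - A m))) ∧
  u + 1 - a ≤ m + 1 - B m ∧ m + 1 - B m ≤ u + R ∧
  u + 1 - a ≤ m + 1 - A m ∧ m + 1 - A m ≤ u + R

theorem invE (hA : RecA A B) (hB : RecB A B) (h : PU A B R u a) :
    ∀ m, u ≤ m → m ≤ 2 * u + R + 2 → InvE A B R u a m := by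
  obtain ⟨hR, hu, ha, slow, Awin, Bwin, Aleft, Aright, O1⟩ := h
  intro m hm
  induction m, hm using Int.leInduction with
  | base =>
    intro _
    have h0 := Awin 0 (by omega) (by omega)
    have h1 := Bwin 0 (by omega) (by omega)
    have h2 := Awin 1 (by omega) (by omega)
    rw [add_zero] at h0 h1
    unfold InvE
    rw [h0, h1, h2]
    refine ⟨by omega, Or.inl rfl, by omega, by omega, by omega, by omega⟩
  | succ m hm ih =>
    intro hm2
    obtain ⟨i1, i2, i3, i4, i5, i6⟩ := ih (by omega)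
    obtain ⟨p, hp⟩ : ∃ p, p = m + 1 - B m := ⟨_, rfl⟩
    obtain ⟨q, hq⟩ : ∃ q, q = m + 1 - A m := ⟨_, rfl⟩
    rw [← hp] at i3 i4
    rw [← hq] at i5 i6 i2
    have hAm : a ≤ A m := by omega
    have hBm : a ≤ B m := by omega
    have ra := hA m (by omega) (by omega) (by omega)
    rw [← hp, ← hq] at ra
    have sp := slow p (by omega) (by omega)
    have sq := slow q (by omega) (by omega)
    have op := O1 p (by omega) (by omega)
    have oq := O1 q (by omega) (by omega)
    have oq1 := O1 (q + 1) (by omega) (by omega)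
    have hAm1 : a ≤ A (m + 1) := by omega
    have rb := hB m (by omega) (by omega) (by omega)
    have e1 : m + 2 - B m = p + 1 := by omega
    rw [e1] at rb
    have e3 : m + 1 + 1 = m + 2 := by ring
    have e4 : q + 1 + 1 = q + 2 := by ring
    rw [e4] at oq1
    rcases i2 with i2 | ⟨i2, i2'⟩
    · have e2 : m + 2 - A (m + 1) = q + 1 := by omega
      rw [e2] at rb
      have hsum : A (m + 1) + B (m + 1) = m + 1 + R + 2 := by omega
      have ra2 := hA (m + 1) (by omega) (by omega) (by omega)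
      have e5 : m + 1 + 1 - B (m + 1) = p := by omega
      have e6 : m + 1 + 1 - A (m + 1) = q + 1 := by omega
      rw [e5, e6] at ra2
      unfold InvE
      rw [e5, e6, e4]
      refine ⟨hsum, ?_, by omega, ?_, by omega, ?_⟩
      · rcases sq.2 with s | s
        · left; omega
        · right
          refine ⟨by omega, by omega⟩
      · omega
      · -- q + 1 ≤ u + R
        by_contra hcon
        have hq1 : q + 1 = u + R + 1 := by omega
        have hb := Bwin (R + 1) (by omega) (by omega)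
        have hb' : B (q + 1) = a + (R + 1) := by rw [hq1, ← hb]; ring_nf
        have hple : p ≤ u - 1 := by omega
        have hmon := slow.mono (x := p + 1) (y := u) (by omega) (by omega) (by omega)
        have ha0 := Awin 0 (by omega) (by omega)
        rw [add_zero] at ha0
        omega
    · have e2 : m + 2 - A (m + 1) = q := by omega
      rw [e2] at rb
      have hsum : A (m + 1) + B (m + 1) = m + 1 + R + 2 := by omega
      have ra2 := hA (m + 1) (by omega) (by omega) (by omega)
      have e5 : m + 1 + 1 - B (m + 1) = p + 1 := by omega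
      have e6 : m + 1 + 1 - A (m + 1) = q := by omega
      rw [e5, e6] at ra2
      unfold InvE
      rw [e5, e6]
      refine ⟨hsum, ?_, by omega, ?_, by omega, by omega⟩
      · rcases sp.2 with s | s
        · left; omega
        · right
          refine ⟨by omega, by omega⟩
      · -- p + 1 ≤ u + R
        by_contra hcon
        have hp1 : p + 1 = u + R + 1 := by omega
        have ha2 := Awin (R + 2) (by omega) (by omega)
        have ha2' : A (p + 2) = a := by
          rw [← ha2]; congr 1; omega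
        have op1 := O1 (p + 1) (by omega) (by omega)
        have e7 : p + 1 + 1 = p + 2 := by ring
        rw [e7] at op1
        have hqle : q ≤ u - 1 := by omega
        have hmon := slow.mono (x := q) (y := u - 1) (by omega) (by omega) (by omega)
        have hb0 := Bwin (-1) (by omega) (by omega)
        have e8 : u + -1 = u - 1 := by ring
        rw [e8] at hb0
        omega


theorem E_phase (hA : RecA A B) (hB : RecB A B) (h : PU A B R u a) :
    PV A B R (2 * u + R + 2) a := by
  have inv := invE hA hB h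
  obtain ⟨hR, hu, ha, slow, Awin, Bwin, Aleft, Aright, O1⟩ := h
  obtain ⟨v, hv⟩ : ∃ v, v = 2 * u + R + 2 := ⟨_, rfl⟩
  rw [← hv] at inv ⊢
  -- the value at `v - R - 3`
  have key : A (v - R - 2) = 2 * a - R - 2 ∧ B (v - R - 2) = 2 * a ∧ B (v - R - 3) = 2 * a - 1 := by
    obtain ⟨i1, i2, i3, i4, i5, i6⟩ := inv (v - R - 3) (by omega) (by omega)
    obtain ⟨p, hp⟩ : ∃ p, p = v - R - 3 + 1 - B (v - R - 3) := ⟨_, rfl⟩
    obtain ⟨q, hq⟩ : ∃ q, q = v - R - 3 + 1 - A (v - R - 3) := ⟨_, rfl⟩
    rw [← hp] at i3 i4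
    rw [← hq] at i5 i6 i2
    have ra := hA (v - R - 3) (by omega) (by omega) (by omega)
    have rb := hB (v - R - 3) (by omega) (by omega) (by omega)
    rw [← hp, ← hq] at ra
    have op := O1 p (by omega) (by omega)
    have e1 : v - R - 3 + 1 = v - R - 2 := by ring
    rw [e1] at ra rb i2
    have hpq : p + 1 = 2 * u - R - q := by omega
    -- sync
    have hsync : B q - A (p + 1) = A (v - R - 2) - A (v - R - 3) := by omega
    have hB0 := Bwin 0 (by omega) (by omega)
    have hB1 := Bwin 1 (by omega) (by omega)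
    have hBm1 := Bwin (-1) (by omega) (by omega)
    have hAR := Awin (-R) (by omega) (by omega)
    have hAR1 := Awin (-R + 1) (by omega) (by omega)
    have e2 : u + -1 = u - 1 := by ring
    rw [e2] at hBm1
    rw [add_zero] at hB0
    have hqu : q = u := by
      rcases lt_trichotomy q u with hlt | heq | hgt
      · exfalso
        have m1 := slow.mono (x := q) (y := u - 1) (by omega) (by omega) (by omega)
        have m2 := slow.mono (x := u + (-R + 1)) (y := p + 1) (by omega) (by omega) (by omega)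
        clear Bwin Awin O1 op inv
        omega
      · exact heq
      · exfalso
        have m1 := slow.mono (x := u + 1) (y := q) (by omega) (by omega) (by omega)
        have m2 := slow.mono (x := p + 1) (y := u - R - 1) (by omega) (by omega) (by omega)
        clear Bwin Awin O1 op inv
        omega
    have hp1 : p + 1 = u + -R := by omega
    have hAv : A (v - R - 2) = A (v - R - 3) := by
      have : A (p + 1) = a := by rw [hp1]; exact hAR
      have : B q = a := by rw [hqu, hB0]; ring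
      omega
    have hAval : A (v - R - 3) = 2 * a - R - 2 := by omega
    have hBval : B (v - R - 3) = 2 * a - 1 := by omega
    have hBn : B (v - R - 2) = 2 * a := by
      have inv2 := inv (v - R - 2) (by omega) (by omega)
      have := inv2.1
      omega
    exact ⟨by omega, hBn, hBval⟩
  obtain ⟨kA, kB, kB'⟩ := key
  have hAu1 := Awin 1 (by omega) (by omega)
  have hBu1 := Bwin 1 (by omega) (by omega)
  have win : ∀ j, -R - 2 ≤ j → j ≤ R + 1 → A (v + j) = 2 * a + j ∧ B (v + j) = 2 * a := by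
    intro j hj
    induction j, hj using Int.leInduction with
    | base =>
      intro _
      have e : v + (-R - 2) = v - R - 2 := by ring
      rw [e, kA, kB]
      exact ⟨by ring, rfl⟩
    | succ j hj ih =>
      intro hj2
      obtain ⟨h1, h2⟩ := ih (by omega)
      have ra := hA (v + j) (by omega) (by omega) (by omega)
      have e1 : v + j + 1 - B (v + j) = u + (1 + j) := by omega
      have e2 : v + j + 1 - A (v + j) = u + 1 := by omega
      rw [e1, e2, Bwin (1 + j) (by omega) (by omega), hBu1] at ra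
      have rb := hB (v + j) (by omega) (by omega) (by omega)
      have e3 : v + j + 2 - A (v + j + 1) = u + 1 := by omega
      have e4 : v + j + 2 - B (v + j) = u + (2 + j) := by omega
      rw [e3, e4, hAu1, Awin (2 + j) (by omega) (by omega)] at rb
      rw [← add_assoc]
      exact ⟨by omega, by omega⟩
  have right : A (v + (R + 2)) = 2 * a + (R + 2) ∧ B (v + (R + 2)) = 2 * a + 1 := by
    obtain ⟨h1, h2⟩ := win (R + 1) (by omega) (by omega)
    have ra := hA (v + (R + 1)) (by omega) (by omega) (by omega)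
    have e1 : v + (R + 1) + 1 - B (v + (R + 1)) = u + (R + 2) := by omega
    have e2 : v + (R + 1) + 1 - A (v + (R + 1)) = u + 1 := by omega
    rw [e1, e2, Bwin (R + 2) (by omega) (by omega), hBu1] at ra
    have rb := hB (v + (R + 1)) (by omega) (by omega) (by omega)
    have e3 : v + (R + 1) + 2 - A (v + (R + 1) + 1) = u + 1 := by omega
    have e4 : v + (R + 1) + 2 - B (v + (R + 1)) = u + R + 3 := by omega
    rw [e3, e4, hAu1, Aright] at rb
    have e5 : v + (R + 2) = v + (R + 1) + 1 := by ring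
    rw [e5]
    exact ⟨by omega, by omega⟩
  refine ⟨hR, by omega, ha, ?_, ?_, ?_, kB', ?_, ?_⟩
  · -- slow
    intro x hx hxN
    rcases lt_or_ge x (u + R + 2) with hx1 | hx1
    · exact slow x hx hx1
    rcases lt_or_ge x v with hx2 | hx2
    · have i1 := inv x (by omega) (by omega)
      have i2 := (inv (x + 1) (by omega) (by omega)).1
      have i3 := i1.1
      have i4 := i1.2.1
      clear inv i1 win right
      omega
    · obtain ⟨j, hj⟩ : ∃ j, j = x - v := ⟨_, rfl⟩
      have hxj : x = v + j := by omega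
      subst hxj
      have w1 := win j (by omega) (by omega)
      rcases lt_or_ge j (R + 1) with hj1 | hj1
      · have w2 := win (j + 1) (by omega) (by omega)
        rw [← add_assoc] at w2
        clear inv win right
        omega
      · have hj2 : j = R + 1 := by omega
        subst hj2
        have e5 : v + (R + 2) = v + (R + 1) + 1 := by ring
        rw [e5] at right
        clear inv win
        omega
  · intro i hi1 hi2
    rcases lt_or_ge i (R + 2) with h1 | h1
    · exact (win i hi1 (by omega)).1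
    · have : i = R + 2 := by omega
      subst this
      exact right.1
  · intro i hi1 hi2
    exact (win i hi1 hi2).2
  · have e5 : v + R + 2 = v + (R + 2) := by ring
    rw [e5]; exact right.2
  · intro x hx1 hx2
    rcases lt_or_ge x v with h1 | h1
    · exact (inv x (by omega) (by omega)).1
    · have w := win (x - v) (by omega) (by omega)
      have e : v + (x - v) = x := by ring
      rw [e] at w
      clear inv win right
      omega

end EPhase

section OPhase

variable {A B : ℤ → ℤ} {R v a : ℤ}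

/-- Invariant of the odd phase. -/
def InvO (A B : ℤ → ℤ) (R v a m : ℤ) : Prop :=
  A (m + 1) + B m = m + R + 3 ∧
  (B (m + 1) = B m ∨ (B (m + 1) = B m + 1 ∧ A (m + 1 - B m + 1) = A (m + 1 - B m) + 1)) ∧
  v - 2 * a + 1 ≤ m + 1 - B m ∧ m + 1 - B m ≤ v + R ∧
  v - 2 * a + 1 ≤ m + 2 - A (m + 1) ∧ m + 2 - A (m + 1) ≤ v + R

theorem invO (hA : RecA A B) (hB : RecB A B) (h : PV A B R v a) :
    ∀ m, v ≤ m → m ≤ 2 * v + R - 1 → InvO A B R v a m := by
  obtain ⟨hR, hv, ha, slow, Awin, Bwin, Bleft, Bright, E1⟩ := h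
  intro m hm
  induction m, hm using Int.leInduction with
  | base =>
    intro _
    have h0 := Awin 1 (by omega) (by omega)
    have h1 := Bwin 0 (by omega) (by omega)
    have h2 := Bwin 1 (by omega) (by omega)
    rw [add_zero] at h1
    unfold InvO
    rw [h0, h1, h2]
    refine ⟨by omega, Or.inl rfl, by omega, by omega, by omega, by omega⟩
  | succ m hm ih =>
    intro hm2
    obtain ⟨i1, i2, i3, i4, i5, i6⟩ := ih (by omega)
    obtain ⟨p, hp⟩ : ∃ p, p = m + 1 - B m := ⟨_, rfl⟩
    obtain ⟨q, hq⟩ : ∃ q, q = m + 2 - A (m + 1) := ⟨_, rfl⟩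
    rw [← hp] at i3 i4 i2
    rw [← hq] at i5 i6
    have rb := hB m (by omega) (by omega) (by omega)
    have e1 : m + 2 - B m = p + 1 := by omega
    rw [e1, ← hq] at rb
    have e3 : m + 1 + 1 = m + 2 := by ring
    have ra := hA (m + 1) (by omega) (by omega) (by omega)
    have e4 : m + 1 + 1 - A (m + 1) = q := by omega
    rw [e4] at ra
    have sp := (slow (p + 1) (by omega) (by omega)).1
    have sq := (slow q (by omega) (by omega)).1
    have ep := E1 p (by omega) (by omega)
    have ep1 := E1 (p + 1) (by omega) (by omega)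
    have eq := E1 q (by omega) (by omega)
    have e6 : p + 1 + 1 = p + 2 := by ring
    rw [e6] at sp
    rcases i2 with i2 | ⟨i2, i2'⟩
    · have e5 : m + 1 + 1 - B (m + 1) = p + 1 := by omega
      rw [e5] at ra
      have hsum : A (m + 1 + 1) + B (m + 1) = m + 1 + R + 3 := by omega
      have rb2 := hB (m + 1) (by omega) (by omega) (by omega)
      have e7 : m + 1 + 2 - A (m + 1 + 1) = q := by omega
      have e8 : m + 1 + 2 - B (m + 1) = p + 2 := by omega
      rw [e7, e8] at rb2
      unfold InvO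
      rw [e5, e6, e7]
      refine ⟨hsum, ?_, by omega, ?_, by omega, by omega⟩
      · rcases sp with s | s
        · left; omega
        · right
          refine ⟨by omega, by omega⟩
      · by_contra hcon
        have hp1 : p = v + R := by omega
        have ha2 := Awin (R + 2) (by omega) (by omega)
        have ha2' : A (p + 2) = 2 * a + (R + 2) := by
          rw [← ha2]; congr 1; omega
        have hmon := slow.mono (x := q) (y := v) (by omega) (by omega) (by omega)
        have hb0 := Bwin 0 (by omega) (by omega)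
        rw [add_zero] at hb0
        omega
    · have e5 : m + 1 + 1 - B (m + 1) = p := by omega
      rw [e5] at ra
      have hsum : A (m + 1 + 1) + B (m + 1) = m + 1 + R + 3 := by omega
      have rb2 := hB (m + 1) (by omega) (by omega) (by omega)
      have e7 : m + 1 + 2 - A (m + 1 + 1) = q + 1 := by omega
      have e8 : m + 1 + 2 - B (m + 1) = p + 1 := by omega
      rw [e7, e8] at rb2
      unfold InvO
      rw [e5, e7]
      refine ⟨hsum, ?_, by omega, by omega, by omega, ?_⟩
      · rcases sq with s | s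
        · left; omega
        · right
          refine ⟨by omega, by omega⟩
      · by_contra hcon
        have hq1 : q + 1 = v + (R + 1) := by omega
        have hb2 := Bwin (R + 1) (by omega) (by omega)
        have hb2' : B (q + 1) = 2 * a := by rw [hq1, hb2]
        have hmon := slow.mono (x := p + 1) (y := v + (-R - 1)) (by omega) (by omega) (by omega)
        have ha0 := Awin (-R - 1) (by omega) (by omega)
        have eq1 := E1 (q + 1) (by omega) (by omega)
        omega

theorem O_phase (hA : RecA A B) (hB : RecB A B) (h : PV A B R v a) :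
    PU A B (R + 1) (2 * v + R - 1) (4 * a - 1) := by
  have inv := invO hA hB h
  obtain ⟨hR, hv, ha, slow, Awin, Bwin, Bleft, Bright, E1⟩ := h
  obtain ⟨u, hu⟩ : ∃ u, u = 2 * v + R - 1 := ⟨_, rfl⟩
  rw [← hu] at inv ⊢
  have hA0 := Awin 0 (by omega) (by omega)
  rw [add_zero] at hA0
  have hAm1 := Awin (-1) (by omega) (by omega)
  have hAm2 := Awin (-2) (by omega) (by omega)
  have hBm1 := Bwin (-1) (by omega) (by omega)
  have key : B (u - R - 2) = v - 1 ∧ A (u - R - 2) = v + R ∧ A (u - R - 1) = v + R + 1 := by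
    obtain ⟨i1, i2, i3, i4, i5, i6⟩ := inv (u - R - 3) (by omega) (by omega)
    have j1 := (inv (u - R - 2) (by omega) (by omega)).1
    obtain ⟨p, hp⟩ : ∃ p, p = u - R - 3 + 1 - B (u - R - 3) := ⟨_, rfl⟩
    obtain ⟨q, hq⟩ : ∃ q, q = u - R - 3 + 2 - A (u - R - 3 + 1) := ⟨_, rfl⟩
    rw [← hp] at i3 i4 i2
    rw [← hq] at i5 i6
    have rb := hB (u - R - 3) (by omega) (by omega) (by omega)
    have e0 : u - R - 3 + 2 - B (u - R - 3) = p + 1 := by omega
    rw [← hq, e0] at rb
    have e1 : u - R - 3 + 1 = u - R - 2 := by ring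
    have e1' : u - R - 2 + 1 = u - R - 1 := by ring
    rw [e1] at i1 i2 rb hp hq
    rw [e1'] at j1
    have eq := E1 q (by omega) (by omega)
    have hpq : p + q = 2 * v - R - 4 := by omega
    have hBR1 := Bwin (-R - 1) (by omega) (by omega)
    have hBR2 := Bwin (-R - 2) (by omega) (by omega)
    have hpv : p = v - 2 := by
      rcases lt_trichotomy p (v - 2) with hlt | heq | hgt
      · exfalso
        have m1 := slow.mono (x := p + 1) (y := v + -2) (by omega) (by omega) (by omega)
        have m2 := slow.mono (x := v + (-R - 1)) (y := q) (by omega) (by omega) (by omega)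
        clear Bwin Awin E1 inv
        omega
      · exact heq
      · exfalso
        have m1 := slow.mono (x := v) (y := p + 1) (by omega) (by omega) (by omega)
        have m2 := slow.mono (x := q) (y := v - R - 3) (by omega) (by omega) (by omega)
        clear Bwin Awin E1 inv
        omega
    have hq1 : q = v + (-R - 2) := by omega
    have hp1 : p + 1 = v + -1 := by omega
    rw [← hq1] at hBR2
    rw [← hp1] at hAm1
    have hBe : B (u - R - 2) = B (u - R - 3) := by omega
    have hBv : B (u - R - 3) = v - 1 := by omega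
    refine ⟨by omega, by omega, by omega⟩
  obtain ⟨kB, kA, kA'⟩ := key
  have win : ∀ j, -R - 2 ≤ j → j ≤ R + 2 →
      B (u + j) = 4 * a - 1 + j ∧ A (u + j + 1) = 4 * a - 1 := by
    intro j hj
    induction j, hj using Int.leInduction with
    | base =>
      intro _
      have e : u + (-R - 2) = u - R - 2 := by ring
      have e' : u - R - 2 + 1 = u - R - 1 := by ring
      rw [e, e', kB, kA']
      exact ⟨by omega, by omega⟩
    | succ j hj ih =>
      intro hj2
      obtain ⟨h1, h2⟩ := ih (by omega)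
      have rb := hB (u + j) (by omega) (by omega) (by omega)
      have e1 : u + j + 2 - A (u + j + 1) = v + j := by omega
      have e2 : u + j + 2 - B (u + j) = v := by omega
      rw [e1, e2, Awin j (by omega) (by omega), hA0] at rb
      have ra := hA (u + j + 1) (by omega) (by omega) (by omega)
      have e3 : u + j + 1 + 1 - B (u + j + 1) = v + -1 := by omega
      have e4 : u + j + 1 + 1 - A (u + j + 1) = v + j := by omega
      rw [e3, e4, hBm1, Bwin j (by omega) (by omega)] at ra
      rw [← add_assoc]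
      exact ⟨by omega, by omega⟩
  have right : B (u + (R + 3)) = 4 * a - 1 + (R + 3) ∧ A (u + R + 4) = 4 * a - 1 + 1 := by
    obtain ⟨h1, h2⟩ := win (R + 2) (by omega) (by omega)
    have rb := hB (u + (R + 2)) (by omega) (by omega) (by omega)
    have e1 : u + (R + 2) + 2 - A (u + (R + 2) + 1) = v + (R + 2) := by omega
    have e2 : u + (R + 2) + 2 - B (u + (R + 2)) = v := by omega
    rw [e1, e2, Awin (R + 2) (by omega) (by omega), hA0] at rb
    have ra := hA (u + (R + 2) + 1) (by omega) (by omega) (by omega)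
    have e3 : u + (R + 2) + 1 + 1 - B (u + (R + 2) + 1) = v + -1 := by omega
    have e4 : u + (R + 2) + 1 + 1 - A (u + (R + 2) + 1) = v + R + 2 := by omega
    rw [e3, e4, hBm1, Bright] at ra
    have e5 : u + (R + 3) = u + (R + 2) + 1 := by ring
    have e6 : u + R + 4 = u + (R + 2) + 1 + 1 := by ring
    rw [e5, e6]
    exact ⟨by omega, by omega⟩
  refine ⟨by omega, by omega, by omega, ?_, ?_, ?_, ?_, ?_, ?_⟩
  · -- slow
    intro x hx hxN
    rcases lt_or_ge x (v + R + 2) with hx1 | hx1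
    · exact slow x hx hx1
    rcases lt_or_ge x u with hx2 | hx2
    · have i1 := inv x (by omega) (by omega)
      have i2 := inv (x - 1) (by omega) (by omega)
      have e : x - 1 + 1 = x := by ring
      have i3 := i1.1
      have i4 := i1.2.1
      have i5 := i2.1
      have i6 := i2.2.1
      rw [e] at i5 i6
      clear inv i1 i2 win right
      omega
    · obtain ⟨j, hj⟩ : ∃ j, j = x - u := ⟨_, rfl⟩
      have hxj : x = u + j := by omega
      subst hxj
      have w0 := win (j - 1) (by omega) (by omega)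
      have w1 := win j (by omega) (by omega)
      have e : u + (j - 1) + 1 = u + j := by ring
      rw [e] at w0
      rcases lt_or_ge j (R + 2) with hj1 | hj1
      · have w2 := win (j + 1) (by omega) (by omega)
        rw [← add_assoc] at w2
        clear inv win right
        omega
      · have hj2 : j = R + 2 := by omega
        subst hj2
        have e5 : u + (R + 3) = u + (R + 2) + 1 := by ring
        rw [e5] at right
        clear inv win
        omega
  · intro i hi1 hi2
    have w := (win (i - 1) (by omega) (by omega)).2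
    have e : u + (i - 1) + 1 = u + i := by ring
    rw [e] at w
    exact w
  · intro i hi1 hi2
    rcases lt_or_ge i (R + 3) with h1 | h1
    · exact (win i (by omega) (by omega)).1
    · have : i = R + 3 := by omega
      subst this
      exact right.1
  · have e : u - (R + 1) - 1 = u - R - 2 := by ring
    rw [e, kA]; omega
  · have e : u + (R + 1) + 3 = u + R + 4 := by ring
    rw [e]; exact right.2
  · intro x hx1 hx2
    rcases lt_or_ge x v with h1 | h1
    · have hxv : x = v + -1 := by omega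
      subst hxv
      have e : v + -1 + 1 = v := by ring
      rw [e, hA0, hBm1]
      omega
    rcases lt_or_ge x u with h2 | h2
    · have := (inv x (by omega) (by omega)).1
      omega
    · have w := win (x - u) (by omega) (by omega)
      have e : u + (x - u) = x := by ring
      rw [e] at w
      clear inv win right
      omega

end OPhase




/-! ### Base case -/

/-- First values of `A`. -/
def listA : List ℕ :=
  [0, 1, 1, 2, 3, 3, 3, 4, 4, 5, 6, 7, 8, 8, 9, 10, 10, 10, 11, 11, 11, 11, 11, 12, 12, 12,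
   12, 13, 13, 14, 15, 15, 15, 16, 16, 17, 18, 19, 19, 20, 21, 22, 23, 24, 25, 25, 26, 27,
   28, 29, 29, 30, 31, 31, 31, 32, 32, 33, 34, 35, 35, 36, 37, 37, 37, 38, 38, 38, 38, 39,
   39, 40, 41, 41, 41, 42, 42, 42, 42, 42, 43, 43, 43, 43, 43, 43, 43, 44, 44]

/-- First values of `B`. -/
def listB : List ℕ :=
  [0, 1, 2, 2, 3, 4, 5, 5, 6, 6, 6, 6, 7, 7, 7, 8, 9, 9, 10, 11, 12, 13, 14, 14, 15, 16, 17,
   17, 18, 18, 18, 19, 20, 20, 21, 21, 21, 21, 22, 22, 22, 22, 22, 22, 23, 23, 23, 23, 23,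
   24, 24, 24, 25, 26, 26, 27, 27, 27, 27, 28, 28, 28, 29, 30, 30, 31, 32, 33, 33, 34, 34,
   34, 35, 36, 36, 37, 38, 39, 40, 40, 41, 42, 43, 44, 45, 46, 47, 47, 48]

/-- First values of `A`. -/
def la (n : ℕ) : ℕ := listA.getD n 0

/-- First values of `B`. -/
def lb (n : ℕ) : ℕ := listB.getD n 0

theorem list_check : ∀ m < 87, 1 ≤ m →
    1 ≤ la m ∧ 1 ≤ lb m ∧ la m ≤ m ∧ lb m ≤ m ∧ la (m + 1) ≤ m + 1 ∧ 1 ≤ la (m + 1) ∧
    la (m + 1) + 1 = lb (m + 1 - lb m) + lb (m + 1 - la m) ∧
    lb (m + 1) = la (m + 2 - la (m + 1)) + la (m + 2 - lb m) := by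
  decide +kernel

theorem base_values {A B : ℤ → ℤ} (hA : RecA A B) (hB : RecB A B) (hA1 : A 1 = 1)
    (hB1 : B 1 = 1) :
    ∀ m : ℕ, m ≤ 87 → ∀ k : ℕ, 1 ≤ k → k ≤ m → A k = la k ∧ B k = lb k := by
  intro m
  induction m with
  | zero => intro _ k h1 h2; omega
  | succ m ih =>
    intro hm k hk1 hk2
    rcases Nat.lt_or_ge k (m + 1) with h | h
    · exact ih (by omega) k hk1 (by omega)
    have hk : k = m + 1 := by omega
    subst hk
    rcases Nat.eq_zero_or_pos m with h0 | h0
    · subst h0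
      refine ⟨?_, ?_⟩
      · simpa [la, listA] using hA1
      · simpa [lb, listB] using hB1
    · obtain ⟨c1, c2, c3, c4, c5, c6, c7, c8⟩ := list_check m (by omega) h0
      obtain ⟨vA, vB⟩ := ih (by omega) m h0 (le_refl _)
      have ra := hA m (by omega) (by omega) (by omega)
      have e1 : (m : ℤ) + 1 - B m = ((m + 1 - lb m : ℕ) : ℤ) := by rw [vB]; omega
      have e2 : (m : ℤ) + 1 - A m = ((m + 1 - la m : ℕ) : ℤ) := by rw [vA]; omega
      rw [e1, e2, (ih (by omega) (m + 1 - lb m) (by omega) (by omega)).2,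
        (ih (by omega) (m + 1 - la m) (by omega) (by omega)).2] at ra
      have hAm : A ((m : ℤ) + 1) = (la (m + 1) : ℤ) := by omega
      have rb := hB m (by omega) (by omega) (by omega)
      have e3 : (m : ℤ) + 2 - A ((m : ℤ) + 1) = ((m + 2 - la (m + 1) : ℕ) : ℤ) := by
        rw [hAm]; omega
      have e4 : (m : ℤ) + 2 - B m = ((m + 2 - lb m : ℕ) : ℤ) := by rw [vB]; omega
      rw [e3, e4] at rb
      have ext : ∀ k : ℕ, 1 ≤ k → k ≤ m + 1 → A k = la k := by
        intro k h1 h2
        rcases Nat.lt_or_ge k (m + 1) with h | h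
        · exact (ih (by omega) k h1 (by omega)).1
        · have : k = m + 1 := by omega
          subst this
          rw [← hAm]; push_cast; rfl
      rw [ext (m + 2 - la (m + 1)) (by omega) (by omega),
        ext (m + 2 - lb m) (by omega) (by omega)] at rb
      refine ⟨by push_cast; exact hAm, ?_⟩
      push_cast
      rw [rb, c8]
      push_cast
      rfl

theorem check_slow : ∀ n < 86, 1 ≤ n →
    (la (n + 1) = la n ∨ la (n + 1) = la n + 1) ∧
    (lb (n + 1) = lb n ∨ lb (n + 1) = lb n + 1) := by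
  decide +kernel

theorem check_Awin : ∀ n < 87, 80 ≤ n → la n = 43 := by decide +kernel

theorem check_Bwin : ∀ n < 87, 79 ≤ n → lb n + 39 = n := by decide +kernel

theorem check_O1 : ∀ n < 86, 40 ≤ n → la (n + 1) + lb n = n + 4 := by decide +kernel

theorem base_PU {A B : ℤ → ℤ} (hA : RecA A B) (hB : RecB A B) (hA1 : A 1 = 1)
    (hB1 : B 1 = 1) : PU A B 2 82 43 := by
  have val := base_values hA hB hA1 hB1 87 (le_refl _)
  refine ⟨le_refl _, by norm_num, by norm_num, ?_, ?_, ?_, ?_, ?_, ?_⟩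
  · intro x hx1 hx2
    obtain ⟨n, rfl⟩ := Int.eq_ofNat_of_zero_le (by omega : 0 ≤ x)
    have h1 := val n (by omega) (by omega)
    have h2 := val (n + 1) (by omega) (by omega)
    push_cast at h2
    have h3 := check_slow n (by omega) (by omega)
    rw [h1.1, h1.2, h2.1, h2.2]
    omega
  · intro i hi1 hi2
    obtain ⟨n, hn⟩ := Int.eq_ofNat_of_zero_le (by omega : 0 ≤ 82 + i)
    rw [hn, (val n (by omega) (by omega)).1, check_Awin n (by omega) (by omega)]
    rfl
  · intro i hi1 hi2
    obtain ⟨n, hn⟩ := Int.eq_ofNat_of_zero_le (by omega : 0 ≤ 82 + i)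
    rw [hn, (val n (by omega) (by omega)).2]
    have := check_Bwin n (by omega) (by omega)
    omega
  · have := (val 79 (by omega) (by omega)).1
    norm_num at this ⊢
    rw [this]
    decide +kernel
  · have := (val 87 (by omega) (by omega)).1
    norm_num at this ⊢
    rw [this]
    decide +kernel
  · intro x hx1 hx2
    obtain ⟨n, rfl⟩ := Int.eq_ofNat_of_zero_le (by omega : 0 ≤ x)
    have h1 := val n (by omega) (by omega)
    have h2 := val (n + 1) (by omega) (by omega)
    push_cast at h2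
    have h3 := check_O1 n (by omega) (by omega)
    rw [h1.2, h2.1]
    omega


/-! ### All generations -/

theorem all_PU {A B : ℤ → ℤ} (hA : RecA A B) (hB : RecB A B) (hA1 : A 1 = 1)
    (hB1 : B 1 = 1) (n : ℕ) :
    ∃ a : ℤ, 3 * a = 2 * 4 ^ (n + 3) + 1 ∧ PU A B ((n : ℤ) + 2) (2 * a - n - 4) a := by
  induction n with
  | zero => exact ⟨43, by norm_num, by simpa using base_PU hA hB hA1 hB1⟩
  | succ n ih =>
    obtain ⟨a, ha, hP⟩ := ih
    refine ⟨4 * a - 1, ?_, ?_⟩
    · rw [show n + 1 + 3 = (n + 3) + 1 by ring, pow_succ]; linarith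
    · have hV := E_phase hA hB hP
      have hU := O_phase hA hB hV
      have e1 : ((n + 1 : ℕ) : ℤ) + 2 = (n : ℤ) + 2 + 1 := by push_cast; ring
      have e2 : 2 * (4 * a - 1) - ((n + 1 : ℕ) : ℤ) - 4 =
          2 * (2 * (2 * a - n - 4) + ((n : ℤ) + 2) + 2) + ((n : ℤ) + 2) - 1 := by
        push_cast; ring
      rw [e1, e2]
      exact hU

theorem all_PV {A B : ℤ → ℤ} (hA : RecA A B) (hB : RecB A B) (hA1 : A 1 = 1)
    (hB1 : B 1 = 1) (n : ℕ) :
    ∃ a : ℤ, 3 * a = 2 * 4 ^ (n + 3) + 1 ∧ PV A B ((n : ℤ) + 2) (4 * a - n - 4) a := by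
  obtain ⟨a, ha, hP⟩ := all_PU hA hB hA1 hB1 n
  refine ⟨a, ha, ?_⟩
  have hV := E_phase hA hB hP
  have e : 4 * a - (n : ℤ) - 4 = 2 * (2 * a - n - 4) + ((n : ℤ) + 2) + 2 := by ring
  rw [e]
  exact hV

theorem slow_all {A B : ℤ → ℤ} (hA : RecA A B) (hB : RecB A B) (hA1 : A 1 = 1)
    (hB1 : B 1 = 1) (N : ℤ) : Slow A B N := by
  obtain ⟨a, ha, hP⟩ := all_PU hA hB hA1 hB1 N.toNat
  intro x hx1 hx2
  refine hP.slow x hx1 ?_
  have h4 : (N.toNat : ℤ) < 4 ^ N.toNat := by
    exact_mod_cast Nat.lt_pow_self (by norm_num : 1 < 4)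
  have h5 : (4 : ℤ) ^ (N.toNat + 3) = 64 * 4 ^ N.toNat := by ring
  have h6 : N ≤ N.toNat := Int.self_le_toNat N
  omega

theorem bounds_all {A B : ℤ → ℤ} (hA : RecA A B) (hB : RecB A B) (hA1 : A 1 = 1)
    (hB1 : B 1 = 1) (m : ℤ) (hm : 1 ≤ m) : 1 ≤ A m ∧ A m ≤ m ∧ 1 ≤ B m ∧ B m ≤ m := by
  have h := (slow_all hA hB hA1 hB1 m).mono (x := 1) (y := m) (le_refl _) hm (le_refl _)
  omega

/-! ### Construction of the two sequences -/

/-- Stage `n` of the simultaneous recursive construction of `A` and `B`. -/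
def stage : ℕ → (ℤ → ℤ) × (ℤ → ℤ)
  | 0 => (fun _ => 1, fun _ => 1)
  | n + 1 =>
    let A := (stage n).1
    let B := (stage n).2
    let m : ℤ := (n : ℤ) + 1
    let x : ℤ := B (m + 1 - B m) + B (m + 1 - A m) - 1
    let A' := Function.update A (m + 1) x
    let y : ℤ := A' (m + 2 - x) + A' (m + 2 - B m)
    (A', Function.update B (m + 1) y)

theorem stage_succ_eq (n : ℕ) (x : ℤ) (hx : x ≤ n + 1) :
    (stage (n + 1)).1 x = (stage n).1 x ∧ (stage (n + 1)).2 x = (stage n).2 x := by
  have h : x ≠ (n : ℤ) + 1 + 1 := by omega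
  constructor
  · simp only [stage]
    exact Function.update_of_ne h _ _
  · simp only [stage]
    exact Function.update_of_ne h _ _

theorem stage_eq (n : ℕ) (x : ℤ) (hx : x ≤ n + 1) (k : ℕ) :
    (stage (n + k)).1 x = (stage n).1 x ∧ (stage (n + k)).2 x = (stage n).2 x := by
  induction k with
  | zero => exact ⟨rfl, rfl⟩
  | succ k ih =>
    have h := stage_succ_eq (n + k) x (by push_cast; omega)
    rw [← add_assoc, h.1, h.2]
    exact ih

/-- The sequence `A`. -/
def seqA (x : ℤ) : ℤ := (stage x.toNat).1 x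

/-- The sequence `B`. -/
def seqB (x : ℤ) : ℤ := (stage x.toNat).2 x

theorem stage_seq (n : ℕ) (x : ℤ) (hx : x ≤ n + 1) :
    (stage n).1 x = seqA x ∧ (stage n).2 x = seqB x := by
  unfold seqA seqB
  rcases Nat.lt_or_ge n x.toNat with h | h
  · obtain ⟨k, hk⟩ := Nat.exists_eq_add_of_lt h
    have := stage_eq n x hx (k + 1)
    rw [hk, add_assoc, this.1, this.2]
    exact ⟨rfl, rfl⟩
  · obtain ⟨k, hk⟩ := Nat.exists_eq_add_of_le h
    have := stage_eq x.toNat x (by omega) k
    rw [← hk] at this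
    exact this

theorem recA_seq : RecA seqA seqB := by
  intro m hm h1 h2
  obtain ⟨n, hn⟩ := Int.eq_ofNat_of_zero_le (by omega : 0 ≤ m - 1)
  have hmn : m = (n : ℤ) + 1 := by omega
  subst hmn
  have e := (stage_seq (n + 1) ((n : ℤ) + 1 + 1) (by push_cast; omega)).1
  rw [← e]
  simp only [stage]
  rw [Function.update_self, (stage_seq n ((n : ℤ) + 1) (by omega)).1,
    (stage_seq n ((n : ℤ) + 1) (by omega)).2,
    (stage_seq n ((n : ℤ) + 1 + 1 - seqB ((n : ℤ) + 1)) (by omega)).2,
    (stage_seq n ((n : ℤ) + 1 + 1 - seqA ((n : ℤ) + 1)) (by omega)).2]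

theorem recB_seq : RecB seqA seqB := by
  intro m hm h1 h2
  obtain ⟨n, hn⟩ := Int.eq_ofNat_of_zero_le (by omega : 0 ≤ m - 1)
  have hmn : m = (n : ℤ) + 1 := by omega
  subst hmn
  have e := (stage_seq (n + 1) ((n : ℤ) + 1 + 1) (by push_cast; omega)).2
  have eA := (stage_seq (n + 1) ((n : ℤ) + 1 + 1) (by push_cast; omega)).1
  have e1 := (stage_seq (n + 1) ((n : ℤ) + 1 + 2 - seqA ((n : ℤ) + 1 + 1))
    (by push_cast; omega)).1
  have e2 := (stage_seq (n + 1) ((n : ℤ) + 1 + 2 - seqB ((n : ℤ) + 1))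
    (by push_cast; omega)).1
  rw [← e, ← e1, ← e2, ← eA]
  simp only [stage]
  rw [Function.update_self, Function.update_self, (stage_seq n ((n : ℤ) + 1) (by omega)).2]

theorem seqA_one : seqA 1 = 1 := by
  have := (stage_seq 0 1 (by norm_num)).1
  rw [← this]; rfl

theorem seqB_one : seqB 1 = 1 := by
  have := (stage_seq 0 1 (by norm_num)).2
  rw [← this]; rfl

/-! ### The perturbed Hofstadter sequence -/

/-- `Q` satisfies the perturbed Hofstadter recurrence: `Q 1 = Q 2 = 1` and
`Q n = Q (n - Q (n - 1)) + Q (n - Q (n - 2)) + (-1) ^ n` for all integers `n ≥ 3`. -/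
def IsPerturbedQ (Q : ℤ → ℤ) : Prop :=
  Q 1 = 1 ∧ Q 2 = 1 ∧ ∀ n : ℤ, 3 ≤ n →
    Q n = Q (n - Q (n - 1)) + Q (n - Q (n - 2)) + (if Even n then 1 else -1)

/-- The explicit solution built from `seqA` and `seqB`. -/
def Q0 (n : ℤ) : ℤ := if Even n then 2 * seqB (n / 2) - 1 else 2 * seqA ((n + 1) / 2) - 1

theorem Q0_even (m : ℤ) : Q0 (2 * m) = 2 * seqB m - 1 := by
  unfold Q0
  rw [if_pos (even_two_mul m)]
  congr 3
  omega

theorem Q0_odd (m : ℤ) : Q0 (2 * m - 1) = 2 * seqA m - 1 := by
  unfold Q0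
  have h : ¬ Even (2 * m - 1) := by
    rw [Int.not_even_iff_odd]
    exact ⟨m - 1, by ring⟩
  rw [if_neg h]
  congr 3
  omega

theorem Q0_bounds (n : ℤ) (hn : 1 ≤ n) : 1 ≤ Q0 n ∧ Q0 n ≤ n := by
  rcases Int.even_or_odd' n with ⟨k, hk | hk⟩
  · subst hk
    rw [Q0_even]
    have := bounds_all recA_seq recB_seq seqA_one seqB_one k (by omega)
    omega
  · have hk' : n = 2 * (k + 1) - 1 := by omega
    subst hk'
    rw [Q0_odd]
    have := bounds_all recA_seq recB_seq seqA_one seqB_one (k + 1) (by omega)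
    omega

theorem Q0_isPerturbedQ : IsPerturbedQ Q0 := by
  refine ⟨?_, ?_, ?_⟩
  · have := Q0_odd 1
    norm_num [seqA_one] at this
    exact this
  · have := Q0_even 1
    norm_num [seqB_one] at this
    exact this
  · intro n hn
    rcases Int.even_or_odd' n with ⟨m, hm | hm⟩
    · obtain ⟨k, hk⟩ : ∃ k, m = k + 1 := ⟨m - 1, by ring⟩
      subst hk
      subst hm
      rw [if_pos (even_two_mul _)]
      have e1 : 2 * (k + 1) - 2 = 2 * k := by ring
      rw [e1, Q0_odd, Q0_even, Q0_even]
      have e2 : 2 * (k + 1) - (2 * seqA (k + 1) - 1) = 2 * (k + 2 - seqA (k + 1)) - 1 := by ring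
      have e3 : 2 * (k + 1) - (2 * seqB k - 1) = 2 * (k + 2 - seqB k) - 1 := by ring
      rw [e2, e3, Q0_odd, Q0_odd]
      have b1 := bounds_all recA_seq recB_seq seqA_one seqB_one (k + 1) (by omega)
      have b2 := bounds_all recA_seq recB_seq seqA_one seqB_one k (by omega)
      have := recB_seq k (by omega) (by omega) (by omega)
      linarith
    · subst hm
      have hne : ¬ Even (2 * m + 1) := by
        rw [Int.not_even_iff_odd]
        exact ⟨m, by ring⟩
      rw [if_neg hne]
      have e1 : 2 * m + 1 - 1 = 2 * m := by ring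
      have e2 : 2 * m + 1 - 2 = 2 * m - 1 := by ring
      have e3 : 2 * m + 1 = 2 * (m + 1) - 1 := by ring
      rw [e1, e2, Q0_even, Q0_odd]
      have e4 : 2 * m + 1 - (2 * seqB m - 1) = 2 * (m + 1 - seqB m) := by ring
      have e5 : 2 * m + 1 - (2 * seqA m - 1) = 2 * (m + 1 - seqA m) := by ring
      rw [e4, e5, e3, Q0_odd, Q0_even, Q0_even]
      have b2 := bounds_all recA_seq recB_seq seqA_one seqB_one m (by omega)
      have := recA_seq m (by omega) (by omega) (by omega)
      linarith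

theorem eq_Q0 {Q : ℤ → ℤ} (hQ : IsPerturbedQ Q) : ∀ n : ℕ, ∀ k : ℤ, 1 ≤ k → k ≤ n → Q k = Q0 k := by
  intro n
  induction n with
  | zero => intro k h1 h2; push_cast at h2; omega
  | succ n ih =>
    intro k h1 h2
    push_cast at h2
    rcases lt_or_ge k ((n : ℤ) + 1) with h | h
    · exact ih k h1 (by omega)
    have hk : k = (n : ℤ) + 1 := by omega
    rcases lt_or_ge k 3 with h3 | h3
    · have : k = 1 ∨ k = 2 := by omega
      rcases this with h4 | h4
      · subst h4; rw [hQ.1, Q0_isPerturbedQ.1]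
      · subst h4; rw [hQ.2.1, Q0_isPerturbedQ.2.1]
    · have b1 := Q0_bounds (k - 1) (by omega)
      have b2 := Q0_bounds (k - 2) (by omega)
      rw [hQ.2.2 k h3, Q0_isPerturbedQ.2.2 k h3, ih (k - 1) (by omega) (by omega),
        ih (k - 2) (by omega) (by omega), ih (k - Q0 (k - 1)) (by omega) (by omega),
        ih (k - Q0 (k - 2)) (by omega) (by omega)]

theorem eq_Q0' {Q : ℤ → ℤ} (hQ : IsPerturbedQ Q) (k : ℤ) (hk : 1 ≤ k) : Q k = Q0 k :=
  eq_Q0 hQ k.toNat k hk (Int.self_le_toNat k)

/-- The sign sequence `s(n) = sign (Q (n + 1) - Q n)`. -/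
def signSeq (Q : ℤ → ℤ) (n : ℕ) : ℤ := Int.sign (Q (n + 1) - Q n)

theorem T_pow (R : ℕ) (a : ℤ) (ha : 3 * a = 2 * 4 ^ (R + 1) + 1) :
    (T (R + 3) : ℤ) = 8 * a - 3 := by
  have h := T_eq (R + 3)
  have h' : (3 * (T (R + 3) : ℤ) + 1) = 4 ^ (R + 3) := by exact_mod_cast h
  have h2 : (4 : ℤ) ^ (R + 3) = 16 * 4 ^ (R + 1) := by
    rw [show R + 3 = (R + 1) + 2 by ring, pow_add]; ring
  omega

theorem signSeq_value {Q : ℤ → ℤ} (hQ : IsPerturbedQ Q) (R : ℕ) (hR : 2 ≤ R) (j : ℕ)
    (hj : j ≤ R + 2) (x : ℕ) (hx : x + (2 * R + 2) + 2 * j = T (R + 3)) :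
    signSeq Q x = if j = 0 then 0 else 1 := by
  obtain ⟨n, rfl⟩ : ∃ n, R = n + 2 := ⟨R - 2, by omega⟩
  obtain ⟨a, ha, hV⟩ := all_PV recA_seq recB_seq seqA_one seqB_one n
  have hT := T_pow (n + 2) a ha
  have hx' : (x : ℤ) = 2 * (4 * a - n - 4 + -(j : ℤ)) - 1 := by
    have : ((x + (2 * (n + 2) + 2) + 2 * j : ℕ) : ℤ) = 8 * a - 3 := by rw [hx, hT]
    push_cast at this
    linarith
  have ha2 := hV.ha
  have hA := hV.Awin (-(j : ℤ)) (by push_cast at *; omega) (by push_cast at *; omega)
  have hB := hV.Bwin (-(j : ℤ)) (by push_cast at *; omega) (by push_cast at *; omega)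
  have h4 : (n : ℤ) < 4 ^ n := by exact_mod_cast Nat.lt_pow_self (by norm_num : 1 < 4)
  have h5 : (4 : ℤ) ^ (n + 3) = 64 * 4 ^ n := by ring
  unfold signSeq
  rw [eq_Q0' hQ (x + 1) (by omega), eq_Q0' hQ x (by omega), hx']
  have e1 : 2 * (4 * a - n - 4 + -(j : ℤ)) - 1 + 1 = 2 * (4 * a - n - 4 + -(j : ℤ)) := by ring
  rw [e1, Q0_even, Q0_odd, hA, hB]
  rcases Nat.eq_zero_or_pos j with h | h
  · subst h
    simp
  · rw [if_neg (by omega)]
    apply Int.sign_eq_one_of_pos
    omega

/-! ### The contradiction -/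

theorem T_ge (k : ℕ) (hk : 3 ≤ k) : 4 * k ≤ T k := by
  induction k, hk using Nat.le_induction with
  | base => decide
  | succ k hk ih => rw [T]; omega

theorem not_regular_of_values (s : ℕ → ℤ)
    (hs : ∀ R : ℕ, 2 ≤ R → ∀ j : ℕ, j ≤ R + 2 → ∀ x : ℕ, x + (2 * R + 2) + 2 * j = T (R + 3) →
      s x = if j = 0 then 0 else 1) : ¬ IsEventuallyFourRegular s := by
  rintro ⟨t, ht, N, hN⟩
  obtain ⟨p, hp, hrec⟩ := exists_rec ht
  obtain ⟨d, hd⟩ : ∃ d, d = p.natDegree := ⟨_, rfl⟩
  rw [← hd] at hrec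
  -- parameters
  obtain ⟨q, hq⟩ : ∃ q, q = 2 * d + N + 10 := ⟨_, rfl⟩
  obtain ⟨e, he⟩ : ∃ e, e = d + N + 12 := ⟨_, rfl⟩
  have hTe := T_ge e (by omega)
  obtain ⟨c, hc⟩ : ∃ c, c + (2 * q + 2) = T e := ⟨T e - (2 * q + 2), by omega⟩
  have hce : c < 4 ^ e := by
    have := T_eq e
    omega
  have hcN : N ≤ c := by omega
  have hval : ∀ k : ℕ, 4 ^ e * T k + c + (2 * q + 2) = T (e + k) := by
    intro k
    rw [add_assoc, hc, T_add]
  have tval : ∀ k j : ℕ, k + j = d + 1 → t (4 ^ e * T k + c) = if j = 0 then 0 else 1 := by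
    intro k j hkj
    have h1 := hval k
    rw [← hN _ (by omega : N ≤ 4 ^ e * T k + c)]
    refine hs (q - j) (by omega) j (by omega) _ ?_
    have e1 : q - j + 3 = e + k := by omega
    rw [e1, ← h1]
    omega
  have r0 := hrec e c hce 0
  have r1 := hrec e c hce 1
  have s0 : ∑ i ∈ Finset.range (d + 1), p.coeff i * t (4 ^ e * T (i + 0) + c) =
      ∑ i ∈ Finset.range (d + 1), p.coeff i := by
    refine Finset.sum_congr rfl ?_
    intro i hi
    rw [Finset.mem_range] at hi
    rw [tval (i + 0) (d + 1 - i) (by omega), if_neg (by omega), mul_one]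
  rw [s0] at r0
  rw [Finset.sum_range_succ] at r0 r1
  have s1 : ∑ i ∈ Finset.range d, p.coeff i * t (4 ^ e * T (i + 1) + c) =
      ∑ i ∈ Finset.range d, p.coeff i := by
    refine Finset.sum_congr rfl ?_
    intro i hi
    rw [Finset.mem_range] at hi
    rw [tval (i + 1) (d - i) (by omega), if_neg (by omega), mul_one]
  rw [s1, tval (d + 1) 0 (by omega), if_pos rfl, mul_zero, add_zero] at r1
  have hlead : p.coeff d = 1 := by rw [hd]; exact hp
  rw [r1, hlead] at r0
  norm_num at r0

/-- The perturbed Hofstadter sequence exists, with `1 ≤ Q n ≤ n` for all `n ≥ 1` (so that all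
arguments in the recurrence are positive), and the sign sequence `n ↦ sign (Q (n + 1) - Q n)`
of every solution of the recurrence is not eventually `4`-regular. -/
theorem result :
    (∃ Q : ℤ → ℤ, IsPerturbedQ Q ∧ ∀ n : ℤ, 1 ≤ n → 1 ≤ Q n ∧ Q n ≤ n) ∧
    ∀ Q : ℤ → ℤ, IsPerturbedQ Q → ¬ IsEventuallyFourRegular (signSeq Q) :=
  ⟨⟨Q0, Q0_isPerturbedQ, Q0_bounds⟩, fun _ hQ =>
    not_regular_of_values _ fun R hR j hj x hx => signSeq_value hQ R hR j hj x hx⟩

end Pool.Agent.Results.MP_f18a8d_nt.NotRegular
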